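import Pool.Agent.H975R2.Wreath.Edgeless
set_option autoImplicit false

/-!
# The Anderson-Lipman conjecture on the edge colouring of wreath products

If `χ'(G) = Δ(G)` and `G` has at least one edge, then `χ'(G ρ G') = Δ(G ρ G')` for every `G'`.
For an edgeless non-empty `G` the wreath product is a disjoint union of copies of `G'`, and the
equality holds exactly when `G'` is of class one.

Proof idea. Colour all copies of `G'` alike and colour the edges between two copies symmetrically:
this reduces the problem to edge colouring a multigraph `Q` on `V(G')` (the edges of `G'` and
`Δ(G)` copies of the complete graph on each orbit). Vizing's multi-fan inequality shows that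
a non-colourable `Q` has a component all of whose orbits attain the maximum degree; there an even
number of circulant perfect matchings (as large as the smallest orbit allows) is coloured
separately first, after which the fan inequality fails at the smallest orbit.
-/

namespace Pool.Agent.Results.MP_632be6_co.WreathClassOne

open Pool.Agent.H975R2.Wreath

theorem result {V W : Type*} [Fintype V] [Fintype W] (G : SimpleGraph V) (G' : SimpleGraph W)
    (hG : chromIndex G = maxDeg G) :
    chromIndex (wreath G G') = maxDeg (wreath G G') ↔
      (G ≠ ⊥ ∨ IsEmpty V ∨ chromIndex G' = maxDeg G') := by
  by_cases hV : IsEmpty V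
  · simp only [hV, true_or, or_true, iff_true]
    exact empty_case G G'
  · rw [not_isEmpty_iff] at hV
    obtain ⟨x0⟩ := hV
    by_cases hbot : G = ⊥
    · subst hbot
      rw [edgeless_maxDeg G' x0, edgeless_chromIndex G' x0]
      constructor
      · intro h; exact Or.inr (Or.inr h)
      · rintro (h | h | h)
        · exact absurd rfl h
        · exact h.elim x0
        · exact h
    · constructor
      · intro _; exact Or.inl hbot
      · intro _
        obtain ⟨c, hc⟩ := exists_colouring G G' hbot hG
        exact chromIndex_eq_maxDeg_of_colouring hc

end Pool.Agent.Results.MP_632be6_co.WreathClassOne
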